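import Pool.Agent.Y754.UL.K
import Pool.Agent.H716R3.Umd

/-!
# Positive contraction semigroups without bounded imaginary powers on lattices arbitrarily close to Hilbert space

For every `ε > 0` there is a norm on the complex Banach lattice `ℓ_2`, with its usual order, that lies between the Hilbert
norm and `1 + ε` times the Hilbert norm, is a lattice norm, and for which there is a positive contractive `C_0`-semigroup whose
generator `-A` has the following properties: `A` is everywhere defined, bounded and sectorial of every angle `ω > 0`, and has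
neither a bounded `H^∞`-calculus nor bounded imaginary powers.
-/

set_option autoImplicit false

open Pool.Agent.H716R3 Pool.Agent.Helper604.UMD Pool.Agent.Y754.UL
open scoped NNReal ENNReal

namespace Pool.Agent.Results.MP_04e97d_an.NearHilbert

universe u v w

/-- `X` is, through `incl`, the complexification of the real Banach lattice `E`, with the norm of the modulus:
every `z` is uniquely `a + i b`, and the norm of `a + i b` is the norm of its modulus `sup_θ (a cos θ + b sin θ)`. -/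
structure IsComplexBanachLattice {E : Type u} {X : Type v} [NormedAddCommGroup E] [NormedSpace ℝ E] [Lattice E]
    [NormedAddCommGroup X] [NormedSpace ℂ X] (incl : E →ₗ[ℝ] X) : Prop where
  completeE : CompleteSpace E
  completeX : CompleteSpace X
  add_mono : ∀ a b c : E, a ≤ b → a + c ≤ b + c
  smul_nonneg : ∀ (r : ℝ) (a : E), 0 ≤ r → 0 ≤ a → 0 ≤ r • a
  solid : ∀ a b : E, |a| ≤ |b| → ‖a‖ ≤ ‖b‖
  decomposition : ∀ z : X, ∃! p : E × E, z = incl p.1 + Complex.I • incl p.2
  norm_modulus : ∀ a b : E, ∃ m : E, IsLUB (Set.range fun θ : ℝ => Real.cos θ • a + Real.sin θ • b) m ∧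
    ‖incl a + Complex.I • incl b‖ = ‖m‖

/-- `-A` generates a positive contractive `C_0`-semigroup on the complex Banach lattice `X`, the complexification of `E`. -/
def GeneratesPositiveContractions {E : Type u} {X : Type v} [NormedAddCommGroup E] [NormedSpace ℝ E] [Lattice E]
    [NormedAddCommGroup X] [NormedSpace ℂ X] (incl : E →ₗ[ℝ] X) (A : X →ₗ.[ℂ] X) : Prop :=
  ∃ T : ℝ≥0 → X →L[ℂ] X, IsC0Semigroup T ∧ IsGenerator T (-A) ∧ (∀ t, ‖T t‖ ≤ 1) ∧
    ∀ t, ∀ a : E, 0 ≤ a → ∃ b : E, 0 ≤ b ∧ T t (incl a) = incl b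

/-- The lattice `X`, the complexification of `E`, is the space `ℓ_2(ι)` of square summable families over an infinite countable
set `ι` (`Φ` and `Ψ` are the coordinates of the elements of `E` and `X`), with the coordinatewise order and with a norm between
the Hilbert norm and `1 + ε` times the Hilbert norm. -/
def IsNearEllTwo (ε : ℝ) {E : Type u} {X : Type v} [NormedAddCommGroup E] [NormedSpace ℝ E] [Lattice E]
    [NormedAddCommGroup X] [NormedSpace ℂ X] (incl : E →ₗ[ℝ] X) : Prop :=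
  ∃ (ι : Type) (_ : Countable ι) (_ : Infinite ι) (Φ : E →ₗ[ℝ] (ι → ℝ)) (Ψ : X →ₗ[ℂ] (ι → ℂ)),
    (∀ a i, Ψ (incl a) i = (Φ a i : ℂ)) ∧ (∀ a b, a ≤ b ↔ ∀ i, Φ a i ≤ Φ b i) ∧
    Set.range Φ = {y | Summable fun i => ‖y i‖ ^ 2} ∧ Set.range Ψ = {y | Summable fun i => ‖y i‖ ^ 2} ∧
    (∀ a, √(∑' i, ‖Φ a i‖ ^ 2) ≤ ‖a‖ ∧ ‖a‖ ≤ (1 + ε) * √(∑' i, ‖Φ a i‖ ^ 2)) ∧
    ∀ x, √(∑' i, ‖Ψ x i‖ ^ 2) ≤ ‖x‖ ∧ ‖x‖ ≤ (1 + ε) * √(∑' i, ‖Ψ x i‖ ^ 2)

/-- `A` is everywhere defined, bounded, and sectorial of every angle `ω > 0`, so that `ω(A) = 0`. -/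
def IsBoundedSectorial {X : Type v} [NormedAddCommGroup X] [NormedSpace ℂ X] (A : X →ₗ.[ℂ] X) : Prop :=
  A.domain = ⊤ ∧ (∃ C : ℝ, ∀ x : A.domain, ‖A x‖ ≤ C * ‖(x : X)‖) ∧
    IsSectorial A ∧ (∀ ω : ℝ, 0 < ω → ω ≤ Real.pi → IsSectorialOfAngle A ω) ∧ sectorialAngle A = 0

/-- For every `ε > 0` there are a Banach lattice `X`, equal to `ℓ_2` with its usual order and a norm between the Hilbert norm and
`1 + ε` times the Hilbert norm (so `X` is UMD), and an everywhere defined bounded operator `A` on `X` which is sectorial of every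
angle `ω > 0`, such that `-A` generates a positive contractive `C_0`-semigroup, while `A` has neither a bounded `H^∞`-calculus
nor bounded imaginary powers. -/
theorem result (ε : ℝ) (hε : 0 < ε) : ∃ (E X : Type) (_ : NormedAddCommGroup E) (_ : NormedSpace ℝ E) (_ : Lattice E)
    (_ : NormedAddCommGroup X) (_ : NormedSpace ℂ X) (incl : E →ₗ[ℝ] X) (A : X →ₗ.[ℂ] X),
    IsComplexBanachLattice incl ∧ IsNearEllTwo ε incl ∧ IsUMD.{0, w} X ∧ IsBoundedSectorial A ∧
    GeneratesPositiveContractions incl A ∧ ¬ HasBoundedHInftyCalculus A ∧ ¬ HasBIP A := by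
  have h12 : (1 : ℝ) < 2 := by norm_num
  have : Fact ((1 : ℝ≥0∞) ≤ 2) := ⟨by norm_num⟩
  have hc0 := hc_nonneg (p := 2) (by norm_num)
  obtain ⟨δ, hδ, hδ1, hδε⟩ : ∃ δ : ℝ, 0 < δ ∧ δ ≤ 1 ∧ δ * hc 2 ≤ ε := by
    refine ⟨min 1 (ε / (hc 2 + 1)), by positivity, min_le_left _ _, ?_⟩
    calc min 1 (ε / (hc 2 + 1)) * hc 2 ≤ ε / (hc 2 + 1) * hc 2 := by
          gcongr
          exact min_le_right _ _
      _ ≤ ε := by
          rw [div_mul_eq_mul_div, div_le_iff₀ (by positivity)]
          nlinarith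
  have hinf : Infinite I := Infinite.of_injective (fun n : ℕ => ((n, Sum.inl 0) : I)) fun a b h => (Prod.ext_iff.1 h).1
  refine ⟨ER hδ, XC hδ, inferInstance, inferInstance, inferInstance, inferInstance, inferInstance, incl,
    (mK hδ hδ1).A h12, ?_, ?_, isUMD_of_equiv (isoH hδ hδ1), ⟨rfl, ⟨‖(mK hδ hδ1).Ab h12‖, fun x => ?_⟩,
    (mK hδ hδ1).isSectorial h12, fun ω h0 h1 => (mK hδ hδ1).sectorial_angle h12 h0 h1, (mK hδ hδ1).angle_eq h12⟩,
    ⟨(mK hδ hδ1).T h12, (mK hδ hδ1).isC0 h12, (mK hδ hδ1).isGen h12, fun t => T_contr hδ hδ1 t,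
      fun t a ha => T_pos hδ hδ1 t a ha⟩,
    (mK hδ hδ1).no_hinf h12, (mK hδ hδ1).no_bip h12⟩
  · exact
      { completeE := inferInstance
        completeX := inferInstance
        add_mono := fun a b c h => add_le_add_left h c
        smul_nonneg := fun r a hr ha => _root_.smul_nonneg hr ha
        solid := fun a b h => HasSolidNorm.solid h
        decomposition := decomp
        norm_modulus := modulus }
  · refine ⟨I, inferInstance, hinf, coL hδ, coL hδ, fun a i => rfl, fun a b => kle_iff, ?_, ?_,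
      fun a => ⟨sqrt_le hδ a hδ1, ?_⟩, fun x => ⟨sqrt_le hδ x hδ1, ?_⟩⟩
    · ext y
      exact ⟨by rintro ⟨x, rfl⟩; exact co_summable hδ x hδ1, fun h => co_surj hδ hδ1 h⟩
    · ext y
      exact ⟨by rintro ⟨x, rfl⟩; exact co_summable hδ x hδ1, fun h => co_surj hδ hδ1 h⟩
    · refine (le_sqrt hδ a hδ1).trans ?_
      change _ ≤ (1 + ε) * √(∑' i, ‖a.co i‖ ^ 2)
      gcongr
    · refine (le_sqrt hδ x hδ1).trans ?_
      change _ ≤ (1 + ε) * √(∑' i, ‖x.co i‖ ^ 2)
      gcongr
  · exact ((mK hδ hδ1).Ab h12).le_opNorm _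

end Pool.Agent.Results.MP_04e97d_an.NearHilbert
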